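import Pool.Agent.Lib.MP_524519_ag.DU5.AB.Iface

/-! # PB: the `p`-basis of `k⟦x⟧` (helper24) -/

set_option autoImplicit false
set_option linter.unusedSectionVars false

namespace Pool.Agent.DU5.AB.H24

open MvPowerSeries Pool.Agent.DU5 Finset

variable {k : Type} [Field k] {p : ℕ} [Fact p.Prime]

theorem ex_apply (a : Fin 3 → Fin p) (i : Fin 3) : ex a i = (a i : ℕ) := rfl

theorem mn_eq (a : Fin 3 → Fin p) : (mn a : O k 3) = monomial (ex a) 1 := by
  unfold mn
  rw [Fin.prod_univ_three, X_pow_eq, X_pow_eq, X_pow_eq, monomial_mul_monomial,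
    monomial_mul_monomial, mul_one, mul_one]
  have h : Finsupp.single 0 (a 0 : ℕ) + Finsupp.single 1 (a 1 : ℕ) +
      Finsupp.single 2 (a 2 : ℕ) = ex a := by
    ext i
    fin_cases i <;> simp [ex_apply]
  rw [h]

/-- the digits are unique -/
theorem digits {u w : Fin 3 →₀ ℕ} {a b : Fin 3 → Fin p} (h : p • u + ex b = p • w + ex a) :
    u = w ∧ a = b := by
  have hp : 0 < p := (Fact.out : p.Prime).pos
  have key : ∀ i, u i = w i ∧ (a i : ℕ) = b i := by
    intro i
    have h1 := DFunLike.congr_fun h i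
    simp only [Finsupp.add_apply, Finsupp.smul_apply, smul_eq_mul, ex_apply] at h1
    have ha := (a i).isLt
    have hb := (b i).isLt
    have e1 : (p * u i + b i) / p = u i := by
      rw [Nat.mul_add_div hp, Nat.div_eq_of_lt hb, add_zero]
    have e2 : (p * w i + a i) / p = w i := by
      rw [Nat.mul_add_div hp, Nat.div_eq_of_lt ha, add_zero]
    have e3 : u i = w i := by rw [← e1, ← e2, h1]
    refine ⟨e3, ?_⟩
    rw [e3] at h1
    omega
  refine ⟨?_, ?_⟩
  · ext i; exact (key i).1
  · funext i; exact Fin.ext (key i).2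

/-- the digits exist -/
theorem exists_digits (v : Fin 3 →₀ ℕ) : ∃ (u : Fin 3 →₀ ℕ) (a : Fin 3 → Fin p),
    v = p • u + ex a := by
  have hp : 0 < p := (Fact.out : p.Prime).pos
  refine ⟨Finsupp.equivFunOnFinite.symm fun i => v i / p, fun i => ⟨v i % p, Nat.mod_lt _ hp⟩, ?_⟩
  ext i
  simp only [Finsupp.add_apply, Finsupp.smul_apply, smul_eq_mul, ex_apply]
  exact (Nat.div_add_mod (v i) p).symm

theorem coeff_pow_smul [CharP k p] (g : O k 3) (w : Fin 3 →₀ ℕ) :
    coeff (p • w) (g ^ p) = coeff w g ^ p := by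
  have hp : p ≠ 0 := (Fact.out : p.Prime).ne_zero
  rw [← map_frobenius_expand p hp, coeff_map, coeff_expand_smul, frobenius_def]

theorem coeff_pow_zero [CharP k p] (g : O k 3) {v : Fin 3 →₀ ℕ} {i : Fin 3} (h : ¬ p ∣ v i) :
    coeff v (g ^ p) = 0 := by
  have hp : p ≠ 0 := (Fact.out : p.Prime).ne_zero
  rw [← map_frobenius_expand p hp, coeff_map, coeff_expand_of_not_dvd p hp g h, map_zero]

theorem coeff_pow_mul [CharP k p] (g G : O k 3) (u : Fin 3 →₀ ℕ) (a : Fin 3 → Fin p) :
    coeff (p • u + ex a) (g ^ p * G) =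
      ∑ x ∈ antidiagonal u, coeff x.1 g ^ p * coeff (p • x.2 + ex a) G := by
  classical
  have hp : 0 < p := (Fact.out : p.Prime).pos
  rw [coeff_mul]
  let φ : (Fin 3 →₀ ℕ) × (Fin 3 →₀ ℕ) → (Fin 3 →₀ ℕ) × (Fin 3 →₀ ℕ) :=
    fun x => (p • x.1, p • x.2 + ex a)
  have hinj : Set.InjOn φ (antidiagonal u : Set ((Fin 3 →₀ ℕ) × (Fin 3 →₀ ℕ))) := by
    intro x _ y _ hxy
    have h1 : p • x.1 = p • y.1 := congrArg Prod.fst hxy
    have h2 : p • x.2 + ex a = p • y.2 + ex a := congrArg Prod.snd hxy
    refine Prod.ext ?_ (digits h2).1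
    ext i
    have := DFunLike.congr_fun h1 i
    simp only [Finsupp.smul_apply, smul_eq_mul] at this
    exact Nat.eq_of_mul_eq_mul_left hp this
  have himg : (antidiagonal u).image φ ⊆ antidiagonal (p • u + ex a) := by
    intro y hy
    obtain ⟨x, hx, rfl⟩ := mem_image.1 hy
    rw [HasAntidiagonal.mem_antidiagonal] at hx ⊢
    simp only [φ]
    rw [← hx, smul_add, add_assoc]
  rw [← sum_subset himg, sum_image hinj]
  · refine sum_congr rfl fun x _ => ?_
    simp only [φ]
    rw [coeff_pow_smul]
  · intro y hy hn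
    rw [HasAntidiagonal.mem_antidiagonal] at hy
    by_cases h : ∀ i, p ∣ y.1 i
    · exfalso
      apply hn
      rw [mem_image]
      have hle : ∀ i, y.1 i / p ≤ u i := by
        intro i
        have h1 := DFunLike.congr_fun hy i
        simp only [Finsupp.add_apply, Finsupp.smul_apply, smul_eq_mul, ex_apply] at h1
        have ha := (a i).isLt
        calc y.1 i / p ≤ (p * u i + a i) / p := Nat.div_le_div_right (by omega)
          _ = u i := by rw [Nat.mul_add_div hp, Nat.div_eq_of_lt ha, add_zero]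
      refine ⟨(Finsupp.equivFunOnFinite.symm fun i => y.1 i / p,
        Finsupp.equivFunOnFinite.symm fun i => u i - y.1 i / p), ?_, ?_⟩
      · rw [HasAntidiagonal.mem_antidiagonal]
        ext i
        simp only [Finsupp.add_apply, Finsupp.equivFunOnFinite_symm_apply_apply]
        have := hle i
        omega
      · simp only [φ]
        refine Prod.ext ?_ ?_
        · ext i
          simp only [Finsupp.smul_apply, smul_eq_mul, Finsupp.equivFunOnFinite_symm_apply_apply]
          exact Nat.mul_div_cancel' (h i)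
        · ext i
          have h1 := DFunLike.congr_fun hy i
          simp only [Finsupp.add_apply, Finsupp.smul_apply, smul_eq_mul, ex_apply,
            Finsupp.equivFunOnFinite_symm_apply_apply] at h1 ⊢
          have h2 := Nat.mul_div_cancel' (h i)
          have h3 : p * (u i - y.1 i / p) = p * u i - p * (y.1 i / p) := Nat.mul_sub p _ _
          have h4 : p * (y.1 i / p) ≤ p * u i := Nat.mul_le_mul_left p (hle i)
          rw [h3]
          omega
    · push Not at h
      obtain ⟨i, hi⟩ := h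
      rw [coeff_pow_zero g hi, zero_mul]

section

variable [CharP k p] [PerfectRing k p]

theorem coeff_pc (a : Fin 3 → Fin p) (G : O k 3) (u : Fin 3 →₀ ℕ) :
    coeff u (pc p a G) = (frobeniusEquiv k p).symm (coeff (p • u + ex a) G) := rfl

theorem pc_add (a : Fin 3 → Fin p) (G H : O k 3) :
    pc p a (G + H) = pc p a G + pc p a H := by
  ext u
  rw [coeff_pc, map_add, map_add, map_add, coeff_pc, coeff_pc]

theorem pc_mul (a : Fin 3 → Fin p) (g G : O k 3) :
    pc p a (g ^ p * G) = g * pc p a G := by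
  ext u
  rw [coeff_pc, coeff_pow_mul, map_sum, coeff_mul]
  refine sum_congr rfl fun x _ => ?_
  rw [map_mul, coeff_pc]
  congr 1
  rw [← frobenius_def]
  exact (frobeniusEquiv k p).symm_apply_apply _

theorem pc_mn (a b : Fin 3 → Fin p) : pc p b (mn a : O k 3) = if a = b then 1 else 0 := by
  classical
  ext u
  rw [coeff_pc, mn_eq, coeff_monomial]
  by_cases hab : a = b
  · subst hab
    rw [if_pos rfl, coeff_one]
    by_cases hu : u = 0
    · subst hu
      rw [if_pos rfl, smul_zero, zero_add, if_pos rfl, map_one]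
    · rw [if_neg hu, if_neg, map_zero]
      intro h
      have h' : p • u + ex a = p • (0 : Fin 3 →₀ ℕ) + ex a := by rw [h, smul_zero, zero_add]
      exact hu (digits h').1
  · rw [if_neg hab, map_zero, if_neg, map_zero]
    intro h
    have h' : p • u + ex b = p • (0 : Fin 3 →₀ ℕ) + ex a := by rw [h, smul_zero, zero_add]
    exact hab (digits h').2

/-- `pc` as an additive map -/
noncomputable def pcH (a : Fin 3 → Fin p) : O k 3 →+ O k 3 :=
  AddMonoidHom.mk' (pc p a) (pc_add a)

theorem pc_sum (c : (Fin 3 → Fin p) → O k 3) (b : Fin 3 → Fin p) :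
    pc p b (∑ a : Fin 3 → Fin p, c a ^ p * mn a) = c b := by
  classical
  change pcH b (∑ a : Fin 3 → Fin p, c a ^ p * mn a) = c b
  rw [map_sum]
  have : ∀ a : Fin 3 → Fin p, pcH b (c a ^ p * mn a) = if a = b then c b else 0 := by
    intro a
    change pc p b (c a ^ p * mn a) = _
    rw [pc_mul, pc_mn]
    by_cases h : a = b
    · rw [if_pos h, if_pos h, mul_one, h]
    · rw [if_neg h, if_neg h, mul_zero]
  rw [sum_congr rfl fun a _ => this a]
  simp

theorem eq_of_pc {G H : O k 3} (h : ∀ a : Fin 3 → Fin p, pc p a G = pc p a H) : G = H := by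
  ext v
  obtain ⟨u, a, rfl⟩ := exists_digits (p := p) v
  apply (frobeniusEquiv k p).symm.injective
  rw [← coeff_pc, ← coeff_pc, h a]

end

/-- PB -/
theorem pb : PBStatement := by
  intro p _ k _ _ _
  refine ⟨pc_add, pc_mul, fun G => ?_, pc_sum⟩
  apply eq_of_pc (p := p)
  intro a
  rw [pc_sum]

end Pool.Agent.DU5.AB.H24
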